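import Pool.Agent.Helper77.MT.Zar

/-!
Project KM, block B6. A multiplicative relation between the eigenvalues of all the elements of a group whose Zariski closure
contains the special linear group is trivial.
-/

set_option autoImplicit false

open Matrix H77MT

namespace Pool.Agent.Helper15.KM

section primes

/-- the valuation of a product of powers of different primes -/
theorem val_prod {ι : Type} [DecidableEq ι] (s : Finset ι) (p : ι → ℕ) (hp : ∀ i, (p i).Prime) (hi : Function.Injective p)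
    (e : ι → ℤ) (j : ι) :
    padicValRat (p j) (∏ i ∈ s, (p i : ℚ) ^ e i) = ∑ i ∈ s, if i = j then e i else 0 := by
  have : Fact (p j).Prime := ⟨hp j⟩
  induction s using Finset.induction_on with
  | empty => simp
  | insert i s his ih =>
    have h0 : ∀ i, (p i : ℚ) ≠ 0 := fun i => Nat.cast_ne_zero.2 (hp i).ne_zero
    rw [Finset.prod_insert his, Finset.sum_insert his, padicValRat.mul (zpow_ne_zero _ (h0 i))
      (Finset.prod_ne_zero_iff.2 fun i _ => zpow_ne_zero _ (h0 i)), ih, padicValRat.zpow]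
    congr 1
    by_cases h : i = j
    · subst h
      rw [if_pos rfl, padicValRat.self (hp i).one_lt, mul_one]
    · rw [if_neg h]
      have h1 : padicValRat (p j) (p i : ℚ) = 0 := by
        rw [padicValRat.of_nat]
        have : padicValNat (p j) (p i) = 0 := by
          apply padicValNat.eq_zero_of_not_dvd
          intro hd
          exact h (hi ((Nat.prime_dvd_prime_iff_eq (hp j) (hp i)).1 hd).symm)
        rw [this]
        rfl
      rw [h1, mul_zero]

end primes

variable {K : Type} [Field K] {n : Type} [Fintype n] [DecidableEq n]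

/-- the polynomial whose factors are the relations -/
noncomputable def relP (K : Type) [Field K] (a b : n → ℕ) : MvPolynomial n K :=
  ∏ σ : Equiv.Perm n, (∏ i, MvPolynomial.X (σ i) ^ a i - ∏ i, MvPolynomial.X (σ i) ^ b i)

theorem relP_symm (a b : n → ℕ) : (relP K a b).IsSymmetric := by
  intro τ
  rw [relP, map_prod]
  refine Fintype.prod_equiv (Equiv.mulLeft τ) _ _ fun σ => ?_
  rw [map_sub, map_prod, map_prod]
  congr 1
  · refine Finset.prod_congr rfl fun i _ => ?_
    rw [map_pow, MvPolynomial.rename_X]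
    rfl
  · refine Finset.prod_congr rfl fun i _ => ?_
    rw [map_pow, MvPolynomial.rename_X]
    rfl

theorem aeval_relP (a b : n → ℕ) (v : n → K) :
    MvPolynomial.aeval v (relP K a b) = ∏ σ : Equiv.Perm n, (∏ i, v (σ i) ^ a i - ∏ i, v (σ i) ^ b i) := by
  rw [relP, map_prod]
  refine Finset.prod_congr rfl fun σ _ => ?_
  rw [map_sub, map_prod, map_prod]
  simp only [map_pow, MvPolynomial.aeval_X]

/-- the coefficients of the characteristic polynomial are polynomials in the entries -/
theorem ev_univ (M : Matrix n n K) (k : ℕ) : ev M ((Matrix.charpoly.univ K n).coeff k) = M.charpoly.coeff k := by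
  have h := Matrix.charpoly.univ_coeff_eval₂Hom (n := n) (RingHom.id K) (fun p : n × n => M p.1 p.2) k
  have h1 : (Matrix.of (Function.curry fun p : n × n => M p.1 p.2)) = M := rfl
  rw [h1] at h
  rw [← h]
  rfl

/-- A symmetric polynomial in the eigenvalues is a polynomial in the entries. -/
theorem exists_ev (P : MvPolynomial n K) (hP : P.IsSymmetric) : ∃ F : MvPolynomial (n × n) K,
    ∀ (M : Matrix n n K) (v : n → K), M.charpoly = ∏ i, (Polynomial.X - Polynomial.C (v i)) →
      ev M F = MvPolynomial.aeval v P := by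
  classical
  obtain ⟨Q, hQ⟩ := MvPolynomial.esymmAlgHom_surjective K (σ := n) (n := Fintype.card n) le_rfl ⟨P, hP⟩
  have hQ' : MvPolynomial.aeval (fun i : Fin (Fintype.card n) => MvPolynomial.esymm n K (i + 1)) Q = P := by
    rw [← MvPolynomial.esymmAlgHom_apply, hQ]
  refine ⟨MvPolynomial.aeval (fun i : Fin (Fintype.card n) =>
    MvPolynomial.C ((-1) ^ ((i : ℕ) + 1)) * (Matrix.charpoly.univ K n).coeff (Fintype.card n - ((i : ℕ) + 1))) Q,
    fun M v hv => ?_⟩
  have e1 : ev M (MvPolynomial.aeval (fun i : Fin (Fintype.card n) =>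
      MvPolynomial.C ((-1) ^ ((i : ℕ) + 1)) * (Matrix.charpoly.univ K n).coeff (Fintype.card n - ((i : ℕ) + 1))) Q) =
      MvPolynomial.aeval (fun i : Fin (Fintype.card n) =>
        (-1) ^ ((i : ℕ) + 1) * M.charpoly.coeff (Fintype.card n - ((i : ℕ) + 1))) Q := by
    rw [← AlgHom.comp_apply, MvPolynomial.comp_aeval]
    congr 2
    funext i
    rw [map_mul, ev_univ, ev_C]
  rw [e1, ← hQ', ← AlgHom.comp_apply, MvPolynomial.comp_aeval]
  congr 2
  funext i
  have hc : Fintype.card n - ((i : ℕ) + 1) ≤ Multiset.card (Multiset.map v Finset.univ.val) := by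
    rw [Multiset.card_map, Finset.card_val, Finset.card_univ]
    exact Nat.sub_le _ _
  have h1 := Multiset.prod_X_sub_C_coeff (Multiset.map v Finset.univ.val) hc
  have h2 : (Multiset.map (fun t => Polynomial.X - Polynomial.C t) (Multiset.map v Finset.univ.val)).prod =
      M.charpoly := by
    rw [hv, Multiset.map_map]
    rfl
  have h3 : Multiset.card (Multiset.map v Finset.univ.val) - (Fintype.card n - ((i : ℕ) + 1)) = (i : ℕ) + 1 := by
    rw [Multiset.card_map, Finset.card_val, Finset.card_univ]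
    have := i.2
    omega
  rw [h2, h3] at h1
  rw [h1, ← mul_assoc, ← mul_pow, neg_mul_neg, one_mul, one_pow, one_mul,
    MvPolynomial.aeval_esymm_eq_multiset_esymm]

variable {Γ : Type} [Group Γ]

/-- B6: a multiplicative relation between the eigenvalues of all elements is trivial -/
theorem no_rel [CharZero K] [IsAlgClosed K] {ρ : Γ →* GL n K} {Δ : Subgroup Γ}
    (hfull : ∀ M : Matrix n n K, M.det = 1 → M ∈ zcl {s | ∃ γ ∈ Δ, s = (ρ γ : Matrix n n K)}) (m : n → ℤ)
    (h : ∀ γ ∈ Δ, ∃ v : n → K, (ρ γ : Matrix n n K).charpoly = ∏ i, (Polynomial.X - Polynomial.C (v i)) ∧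
      ∏ i, v i ^ m i = 1) : ∀ i j, m i = m j := by
  classical
  obtain ⟨F, hF⟩ := exists_ev (relP K (fun i => (m i).toNat) fun i => (-m i).toNat) (relP_symm _ _)
  -- `F` vanishes on the image
  have hvan : ∀ s ∈ {s | ∃ γ ∈ Δ, s = (ρ γ : Matrix n n K)}, ev s F = 0 := by
    rintro _ ⟨γ, hγ, rfl⟩
    obtain ⟨v, hv, hm⟩ := h γ hγ
    rw [hF _ v hv, aeval_relP]
    refine Finset.prod_eq_zero (Finset.mem_univ (1 : Equiv.Perm n)) ?_
    rw [sub_eq_zero]
    have hv0 : ∀ i, v i = 0 → m i = 0 := by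
      intro i hi
      by_contra hne
      have : ∏ i, v i ^ m i = 0 := Finset.prod_eq_zero (Finset.mem_univ i) (by rw [hi, _root_.zero_zpow _ hne])
      rw [this] at hm
      exact zero_ne_one hm
    calc ∏ i, v ((1 : Equiv.Perm n) i) ^ (m i).toNat = ∏ i, v i ^ m i * v i ^ (-m i).toNat := by
          refine Finset.prod_congr rfl fun i _ => ?_
          rw [Equiv.Perm.one_apply]
          by_cases hi : v i = 0
          · rw [hv0 i hi]
            simp
          · rw [← zpow_natCast, ← zpow_natCast, ← zpow_add₀ hi]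
            congr 1
            omega
      _ = ∏ i, v ((1 : Equiv.Perm n) i) ^ (-m i).toNat := by
          rw [Finset.prod_mul_distrib, hm, one_mul]
          rfl
  -- a diagonal matrix with independent entries
  let e := Fintype.equivFin n
  obtain ⟨p, hpdef⟩ : ∃ p : n → ℕ, p = fun i => Nat.nth Nat.Prime (e i) := ⟨_, rfl⟩
  have hp : ∀ i, (p i).Prime := fun i => by rw [hpdef]; exact Nat.prime_nth_prime _
  have hpi : Function.Injective p := by
    intro i j hij
    rw [hpdef] at hij
    exact e.injective (Fin.ext (Nat.nth_injective Nat.infinite_setOfPred_prime hij))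
  obtain ⟨N, hN⟩ : ∃ N : ℕ, N = Fintype.card n := ⟨_, rfl⟩
  obtain ⟨q, hq⟩ : ∃ q : n → ℚ, q = fun i => (p i : ℚ) ^ (N : ℤ) * (∏ k, (p k : ℚ))⁻¹ := ⟨_, rfl⟩
  have hp0 : ∀ i, (p i : ℚ) ≠ 0 := fun i => Nat.cast_ne_zero.2 (hp i).ne_zero
  have hP0 : (∏ k, (p k : ℚ)) ≠ 0 := Finset.prod_ne_zero_iff.2 fun i _ => hp0 i
  have hq0 : ∀ i, q i ≠ 0 := fun i => by
    rw [hq]
    exact mul_ne_zero (zpow_ne_zero _ (hp0 i)) (inv_ne_zero hP0)
  have hqdet : ∏ i, q i = 1 := by
    rw [hq, Finset.prod_mul_distrib, Finset.prod_const, Finset.card_univ, ← hN, Finset.prod_zpow,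
      zpow_natCast, inv_pow, mul_inv_cancel₀ (pow_ne_zero _ hP0)]
  have hmem := hfull (Matrix.diagonal fun i => ((q i : ℚ) : K)) (by
    rw [Matrix.det_diagonal, ← Rat.cast_prod, hqdet, Rat.cast_one])
  have hz := hmem F hvan
  rw [hF _ (fun i => ((q i : ℚ) : K)) (Matrix.charpoly_diagonal _), aeval_relP] at hz
  obtain ⟨σ, -, hσ⟩ := Finset.prod_eq_zero_iff.1 hz
  rw [sub_eq_zero] at hσ
  have hσ' : ∏ i, q (σ i) ^ (m i).toNat = ∏ i, q (σ i) ^ (-m i).toNat := by
    have : ((∏ i, q (σ i) ^ (m i).toNat : ℚ) : K) = ((∏ i, q (σ i) ^ (-m i).toNat : ℚ) : K) := by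
      push_cast
      exact hσ
    exact Rat.cast_injective this
  have hone : ∏ i, q (σ i) ^ m i = 1 := by
    have h1 : ∏ i, q (σ i) ^ m i = (∏ i, q (σ i) ^ (m i).toNat) * (∏ i, q (σ i) ^ (-m i).toNat)⁻¹ := by
      rw [← Finset.prod_inv_distrib, ← Finset.prod_mul_distrib]
      refine Finset.prod_congr rfl fun i _ => ?_
      rw [← zpow_natCast, ← zpow_natCast, ← _root_.zpow_neg, ← zpow_add₀ (hq0 _)]
      congr 1
      omega
    rw [h1, hσ', mul_inv_cancel₀]
    exact Finset.prod_ne_zero_iff.2 fun i _ => pow_ne_zero _ (hq0 _)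
  -- in terms of `c k = m (σ⁻¹ k)`
  have hone' : ∏ k, q k ^ m (σ.symm k) = 1 := by
    rw [← hone]
    refine Fintype.prod_equiv σ.symm _ _ fun k => ?_
    rw [Equiv.apply_symm_apply]
  obtain ⟨c, hc⟩ : ∃ c : n → ℤ, c = fun k => m (σ.symm k) := ⟨_, rfl⟩
  have hexp : ∏ k, (p k : ℚ) ^ (N * c k - ∑ j, c j) = 1 := by
    rw [← hone']
    have h1 : ∏ k, q k ^ m (σ.symm k) = (∏ k, (p k : ℚ) ^ (N * c k)) * ∏ k, ((∏ j, (p j : ℚ))⁻¹) ^ c k := by
      rw [← Finset.prod_mul_distrib]
      refine Finset.prod_congr rfl fun k _ => ?_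
      rw [hq, hc, mul_zpow, ← _root_.zpow_mul]
    rw [h1]
    have h2 : ∏ k, ((∏ j, (p j : ℚ))⁻¹) ^ c k = ∏ j, (p j : ℚ) ^ (-∑ k, c k) := by
      have h3 : ∀ s : Finset n, ∏ k ∈ s, ((∏ j, (p j : ℚ))⁻¹) ^ c k = ((∏ j, (p j : ℚ))⁻¹) ^ (∑ k ∈ s, c k) := by
        intro s
        induction s using Finset.induction_on with
        | empty => simp
        | insert i s his ih =>
          rw [Finset.prod_insert his, Finset.sum_insert his, ih, ← zpow_add₀ (inv_ne_zero hP0)]
      rw [h3, _root_.inv_zpow', Finset.prod_zpow]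
    rw [h2, ← Finset.prod_mul_distrib]
    refine Finset.prod_congr rfl fun k _ => ?_
    rw [← zpow_add₀ (hp0 k)]
    rfl
  have hval : ∀ k, (N : ℤ) * c k = ∑ j, c j := by
    intro k
    have h1 := val_prod Finset.univ p hp hpi (fun k => N * c k - ∑ j, c j) k
    rw [hexp, Finset.sum_ite_eq' Finset.univ k] at h1
    simp only [padicValRat.one, Finset.mem_univ, if_true] at h1
    omega
  intro i j
  have hN0 : (N : ℤ) ≠ 0 := by
    rw [hN]
    have : Nonempty n := ⟨i⟩
    exact_mod_cast Fintype.card_ne_zero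
  have h1 : c (σ i) = c (σ j) := by
    apply mul_left_cancel₀ hN0
    rw [hval, hval]
  rw [hc] at h1
  simpa using h1

end Pool.Agent.Helper15.KM
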